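import Pool.Agent.Lib.MP_52ffb9_lc.Main

/-! Witness-bounding cuts for iterated self-interpretations need not exist. -/

namespace Pool.Agent.Results.MP_52ffb9_lc.NoWitnessCut

open Pool.Agent.Lib.MP_52ffb9_lc

theorem result : ∃ (L : Sig) (A : Set (Fm L)) (N : Transl LA L) (n : ℕ),
    Finite L.F ∧ Finite L.R ∧ A.Finite ∧ (∀ φ ∈ A, φ.Bd 0) ∧ Sequential A ∧
    Interprets N S12 A ∧ ∀ I : Fm L, IsCut A N I → ∃ (B : Fm L) (M : Transl L L),
      B.Bd 1 ∧ (N.dom.and B).ex.rho ≤ n ∧ Interprets M A A ∧ M.RhoLe n ∧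
      Prov A (M.fm (I.and B).ex) ∧ ∀ m k : ℕ, ¬ Prov A (disj ((List.range (m + 1)).flatMap
        fun i ↦ (List.range k).map fun j ↦ (M.pow j).fm (atNum N B i))) :=
  main

end Pool.Agent.Results.MP_52ffb9_lc.NoWitnessCut
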